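import Mathlib
import Pool.Agent.T9h37.NK.Defs

/-!
# Tensor products with abelian varieties of maximal angle rank: definitions
-/

set_option autoImplicit false

open CategoryTheory AlgebraicGeometry

universe u v w

namespace Pool.Agent.T9h37.NM

open Polynomial Pool.Agent.H914 Pool.Agent.H914.VarClass Pool.Agent.H914.VarClass.Obj
  Pool.Agent.W492.BB Pool.Agent.W484.CK Pool.Agent.T9h37.NK

variable {k : Type u} [Field k] {𝒱 : VarClass k} {C : TheoryData.{u, v, 0} 𝒱 ℚ} {K : Type w}
  [Field K] (H : WeilTheoryData.{u, v, w} C K) {A Y : 𝒱.Obj}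

/-- `y` is an eigenvalue of the endomorphism `π` on `H^1(A)`. -/
def IsEigenvalueOne (π : A ⟶ A) (y : K) : Prop :=
  ∃ c : H.A A, H.Deg 1 c ∧ c ≠ 0 ∧ H.up π c = y • c

/-- `c` is an eigenvector of `π` in `H^1(A)`, or zero. -/
def IsEigenvectorOne (π : A ⟶ A) (c : H.A A) : Prop :=
  H.Deg 1 c ∧ ∃ y : K, H.up π c = y • c

/-- `π` is the Frobenius endomorphism of the abelian variety `A` over the field with `Q` elements: the
cohomology of `A` is generated by `H^1(A)`, whose elements anticommute, and which is spanned by
eigenvectors of Frobenius (Weil); the eigenvalues on `H^1(A)` are the roots of a rational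
polynomial, and with `y` also `Q / y` is an eigenvalue (Weil); the classes in `H^2(A)` on which `π` acts as
multiplication by `Q` are linear combinations of classes of divisors (Tate). -/
structure IsAbelianVariety [CharZero K] (π : A ⟶ A) (Q : ℕ) : Prop where
  one_lt : 1 < Q
  frobenius : IsFrobenius C π Q
  generated : IsGenerated H A
  anticomm : IsAnticommutative H A
  semisimple : ∀ c : H.A A, H.Deg 1 c → InSpan H (IsEigenvectorOne H π) c
  rational : ∃ P : ℚ[X], P ≠ 0 ∧ ∀ y : K, IsEigenvalueOne H π y ↔ aeval y P = 0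
  dual : ∀ y : K, IsEigenvalueOne H π y → IsEigenvalueOne H π ((Q : K) / y)
  tate : ∀ c : H.A A, H.Deg 2 c → H.up π c = (Q : K) • c → InSpan H (IsDivisorClass H) c

/-- The angle rank of `A` is maximal, up to supersingular factors with only one Frobenius eigenvalue: the
only multiplicative relations between the eigenvalues of Frobenius on `H^1(A)`, up to roots of unity and
powers of `Q`, are the trivial ones, `y * (Q / y) = Q`, that is, if some power of a product of
eigenvalues with exponents `e y ≥ 0` is the same power of `Q ^ c`, then `y` and `Q / y` have the same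
exponent; and at most one of the two square roots of `Q` is an eigenvalue. -/
structure HasMaximalAngleRank (π : A ⟶ A) (Q : ℕ) : Prop where
  relations : ∀ (S : Finset K) (e : K → ℕ) (c : ℤ) (N : ℕ), 0 < N →
    (∀ y ∈ S, IsEigenvalueOne H π y) → (∀ y, y ∉ S → e y = 0) →
    (∏ y ∈ S, y ^ e y) ^ N = ((Q : K) ^ c) ^ N → ∀ y, e y = e ((Q : K) / y)
  real : ∀ y y' : K, IsEigenvalueOne H π y → IsEigenvalueOne H π y' → y ^ 2 = (Q : K) →
    y' ^ 2 = (Q : K) → y = y'

/-- The number `ρ` is independent of the eigenvalue `y` on `H^1` of an abelian variety: some automorphism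
of `K` fixes a power of `ρ` and maps `y` to its complex conjugate `Q / y`, and, if `y ^ 2 = Q`, no power of
`y * ρ` is the same power of a power of `Q`. This holds for instance if `y` is not a square root of `Q`,
and the Galois closures of the fields generated by `y` and by a power of `ρ` are linearly disjoint, or a
power of `ρ` is rational. -/
structure IsIndependent (Q : ℕ) (y ρ : K) : Prop where
  conj : ∃ (τ : K ≃+* K) (M : ℕ), 0 < M ∧ τ y = (Q : K) / y ∧ τ (ρ ^ M) = ρ ^ M
  real : y ^ 2 = (Q : K) → ∀ (c : ℤ) (N : ℕ), 0 < N → (y * ρ) ^ N ≠ ((Q : K) ^ c) ^ N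

/-- The assumptions on `𝒜 = (Y, e')` relative to the abelian variety `A`, where `πA` and `πY` are the
Frobenius endomorphisms: `e'` is an idempotent, the Frobenius endomorphism `πA × πY` of `A × Y` acts on
the Chow groups as expected, and `πY` on the cohomology, products of sufficiently many
homologically trivial endomorphisms of the noncommutative motive of `A × Y` are zero, and the
eigenvalues that occur in `𝒜` are independent of each eigenvalue on `H^1(A)`. -/
structure IsIndependentOf [CharZero K] (πA : A ⟶ A) (Q : ℕ) (πY : Y ⟶ Y) (e' : C.A (Y.prod Y)) :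
    Prop where
  idempotent : IsIdempotent C e'
  frobenius : IsFrobenius C (prodMap πA πY) Q
  algebraic : HasAlgebraicEigenvalues H πY
  nilpotent : ProductsVanish H (A.prod Y)
  independent : ∀ y ρ : K, IsEigenvalueOne H πA y → Occurs H πY e' ρ → IsIndependent Q y ρ

/-- The conclusion for the direct factor `𝒳 = (A, e)` of `perf(A)`: `K_0(𝒳)_ℚ` has a finite basis
`D j` and its Euler pairing is nondegenerate, and for all `𝒜 = (Y, e')` as in `IsIndependentOf` the Kunneth
formula `K_0(𝒳 ⊗ 𝒜)_ℚ = ⨁ D j × K_0(𝒜)_ℚ` holds, and the same for the kernels of the Euler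
pairings, and, if `K_0(𝒳)_ℚ` is not zero, the Euler pairing of `𝒳 ⊗ 𝒜` is nondegenerate if and only if
the one of `𝒜` is. -/
def KunnethForIndependent [CharZero K] (π : A ⟶ A) (Q : ℕ) (e : C.A (A.prod A)) : Prop :=
  ∃ (J : Type) (_ : Fintype J) (D : J → C.A A), IsBasisOf C e D ∧ IsNondegenerate H e ∧
    ∀ (Y : 𝒱.Obj) (πY : Y ⟶ Y) (e' : C.A (Y.prod Y)), IsIndependentOf H π Q πY e' →
      TensorKunneth H e e' D ∧
        (Nonempty J → (IsNondegenerate H (tensor C e e') ↔ IsNondegenerate H e'))

end Pool.Agent.T9h37.NM
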