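import Pool.Agent.T9h37.NM.Pair

/-!
# Tensor products with abelian varieties of maximal angle rank
-/

set_option autoImplicit false
set_option linter.unusedSectionVars false

open CategoryTheory AlgebraicGeometry

universe u v w

namespace Pool.Agent.T9h37.NM

open Module Polynomial Pool.Agent.H914 Pool.Agent.H914.VarClass Pool.Agent.H914.VarClass.Obj
  Pool.Agent.W492.BB Pool.Agent.W550.Corr Pool.Agent.W484.TB Pool.Agent.W484.HS Pool.Agent.W484.CK
  Pool.Agent.W484 Pool.Agent.T9h37.NK

variable {k : Type u} [Field k] {𝒱 : VarClass k} {C : TheoryData.{u, v, 0} 𝒱 ℚ} {K : Type w}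
  [Field K] [CharZero K] {H : WeilTheoryData.{u, v, w} C K} [hC : IsChow C] [hH : IsWeil H]
  {A Y : 𝒱.Obj} {π : A ⟶ A} {Q : ℕ}

/-- **Existence of a good basis.** -/
theorem exists_good_basis (hS : CH.IsStandard H) (h : IsAbelianVariety H π Q)
    (hr : HasMaximalAngleRank H π Q) :
    ∃ (n : ℕ) (b : Basis (Fin n) K (H.A A)) (α : Fin n → K),
      (∀ t, H.pull π (b t) = α t • b t) ∧ (∀ t, IsIntegral ℚ (α t)) ∧
      ∀ ρ : K, (ρ = 1 ∨ ∀ y, IsEigenvalueOne H π y → IsIndependent Q y ρ) →
        ∀ t (c : ℤ), α t * ρ = (Q : K) ^ c → ∃ l : ℕ, α t = (Q : K) ^ l ∧ b t ∈ CH.NK H A l := by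
  have hfin := hS.finite A
  have hQ1 : Q ≠ 0 := by
    have := h.one_lt
    omega
  have hQ : (Q : K) ≠ 0 := by exact_mod_cast hQ1
  let val : {y : K // IsEigenvalueOne H π y} → K := fun y => (y : K)
  have hU : Submodule.span K {v : H.A A | v ∈ H.gr A 1 ∧ ∃ y, H.pull π v = val y • v} =
      H.gr A 1 := by
    refine le_antisymm (Submodule.span_le.2 fun v hv => hv.1) fun c hc => ?_
    have h1 : c ∈ Submodule.span K {a | IsEigenvectorOne H π a} := h.semisimple c hc
    clear hc
    induction h1 using Submodule.span_induction with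
    | mem a ha =>
      obtain ⟨ha1, y, hy⟩ := ha
      by_cases ha0 : a = 0
      · rw [ha0]
        exact Submodule.zero_mem _
      · exact Submodule.subset_span ⟨ha1, ⟨y, a, ha1, ha0, hy⟩, hy⟩
    | zero => exact Submodule.zero_mem _
    | add x y _ _ hx hy => exact Submodule.add_mem _ hx hy
    | smul c x _ hx => exact Submodule.smul_mem _ _ hx
  have hgen : Algebra.adjoin K (H.gr A 1 : Set (H.A A)) = ⊤ := by
    rw [eq_top_iff]
    intro a _
    exact h.generated _ (fun b hb => Algebra.subset_adjoin hb) a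
  obtain ⟨n, b, α, hb⟩ := CH.exists_basis (H.pull π) val (H.gr A 1) hU hgen
  obtain ⟨P, hP0, hP⟩ := h.rational
  refine ⟨n, b, α, fun t => (hb t).1, fun t => ?_, ?_⟩
  · obtain ⟨-, L, -, -, hL⟩ := hb t
    rw [hL]
    clear hL
    induction L with
    | nil => simpa using isIntegral_one
    | cons a L ih =>
      rw [List.map_cons, List.prod_cons]
      refine IsIntegral.mul ?_ ih
      exact isAlgebraic_iff_isIntegral.1 ⟨P, hP0, (hP _).1 a.2.2⟩
  · intro ρ hρ t c hc
    obtain ⟨-, L, hL1, hL2, hL3⟩ := hb t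
    have hpair := pair h hr ρ hρ
    have h1 := CH.list_graded (H.pull π) val (Q : K) ρ hQ hpair (CH.NK H A) CH.one_mem_NK
      (fun a ha l b hb => by
        rw [add_comm l 1]
        exact CH.mul_mem_NK ha hb)
      (H.gr A 1 : Set (H.A A)) (fun a ha b hb => h.anticomm a b ha hb)
      (fun a ha b hb y y' h2 h3 h4 => by
        apply CH.mem_NK_one
        refine h.tate (a * b) (H.mul_mem ha hb) ?_
        change H.pull π (a * b) = _
        rw [map_mul, h2, h3, smul_mul_smul_comm, h4])
      L.length c 1 one_pos L rfl hL1 (by rw [pow_one, pow_one, ← hL3]; exact hc)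
    obtain ⟨l, -, h2, h3⟩ := h1
    refine ⟨l, ?_, ?_⟩
    · rw [hL3, h2]
    · rw [hL2]
      exact h3

theorem NK_le (l : ℕ) : CH.NK H A l ≤ Submodule.span K {b | ∃ x : C.A A, b = H.cl x} := by
  refine Submodule.span_mono ?_
  rintro _ ⟨D, -, rfl⟩
  exact ⟨D, rfl⟩

theorem shift_basis {n : ℕ} (b : Basis (Fin n) K (H.A A)) (α : Fin n → K)
    (hb : ∀ t, H.pull π (b t) = α t • b t) (μ : K) (m : ℕ) (a : H.A A) :
    (shift H π μ)^[m] a = ∑ t, ((α t - μ) ^ m * b.repr a t) • b t := by
  induction m with
  | zero =>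
    simp only [Function.iterate_zero, id_eq, pow_zero, one_mul]
    exact (b.sum_repr a).symm
  | succ m ih =>
    rw [Function.iterate_succ_apply', ih]
    change H.pull π _ - μ • _ = _
    rw [map_sum, Finset.smul_sum, ← Finset.sum_sub_distrib]
    refine Finset.sum_congr rfl fun t _ => ?_
    rw [map_smul, hb, smul_smul, smul_smul, ← sub_smul]
    congr 1
    ring

/-- Generalized eigenvectors with eigenvalue `μ` are combinations of the basis vectors with this
eigenvalue. -/
theorem gen_mem {n : ℕ} (b : Basis (Fin n) K (H.A A)) (α : Fin n → K)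
    (hb : ∀ t, H.pull π (b t) = α t • b t) {μ : K} {a : H.A A} (ha : IsGenEigen H π μ a) :
    a ∈ Submodule.span K {c | ∃ t, α t = μ ∧ c = b t} := by
  obtain ⟨m, hm⟩ := ha
  rw [shift_basis b α hb] at hm
  have h1 := Fintype.linearIndependent_iff.1 b.linearIndependent _ hm
  rw [← b.sum_repr a]
  refine Submodule.sum_mem _ fun t _ => ?_
  by_cases ht : α t = μ
  · exact Submodule.smul_mem _ _ (Submodule.subset_span ⟨t, ht, rfl⟩)
  · have h2 := h1 t
    rw [(mul_eq_zero.1 h2).resolve_left (pow_ne_zero _ (sub_ne_zero.2 ht)), zero_smul]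
    exact Submodule.zero_mem _

theorem isTate (hS : CH.IsStandard H) (h : IsAbelianVariety H π Q)
    (hr : HasMaximalAngleRank H π Q) (e : C.A (A.prod A)) (he : IsIdempotent C e) :
    IsTate H π Q e := by
  obtain ⟨n, b, α, hb, -, hgood⟩ := exists_good_basis hS h hr
  have hQ1 : Q ≠ 0 := by
    have := h.one_lt
    omega
  have hQ : (Q : K) ≠ 0 := by exact_mod_cast hQ1
  have hfrob := isFrobenius_bridge h.frobenius
  have hact : ∀ x : C.A A, InKZero e (C.act e x) := by
    intro x
    have h1 : C.act (compose C e e) x = C.act e (C.act e x) := C.act_comp e e x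
    rw [he] at h1
    exact h1.symm
  constructor
  · intro c a ha
    have h1 := gen_mem b α hb ha
    have h2 : a ∈ Submodule.span K {b | ∃ x : C.A A, b = H.cl x} := by
      refine (Submodule.span_le.2 ?_ : _ ≤ _) h1
      rintro _ ⟨t, ht, rfl⟩
      obtain ⟨l, -, hl⟩ := hgood 1 (Or.inl rfl) t c (by rw [mul_one]; exact ht)
      exact NK_le l hl
    clear h1 ha
    induction h2 using Submodule.span_induction with
    | mem a ha =>
      obtain ⟨x, rfl⟩ := ha
      refine Submodule.subset_span ⟨C.act e x, hact x, ?_⟩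
      exact (cl_act H e x).symm
    | zero =>
      rw [H.act_map_zero]
      exact Submodule.zero_mem _
    | add x y _ _ hx hy =>
      rw [act_map_add]
      exact Submodule.add_mem _ hx hy
    | smul c x _ hx =>
      rw [act_map_smul]
      exact Submodule.smul_mem _ _ hx
  · intro x _ hx
    have hbt : ∀ t, H.tr A (H.cl x * b t) = 0 := by
      intro t
      by_cases ht : ∃ l : ℕ, b t ∈ CH.NK H A l
      · obtain ⟨l, hl⟩ := ht
        have h1 : ∀ v ∈ Submodule.span K {b | ∃ x : C.A A, b = H.cl x},
            H.tr A (H.cl x * v) = 0 := by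
          intro v hv
          induction hv using Submodule.span_induction with
          | mem a ha =>
            obtain ⟨w, rfl⟩ := ha
            have h2 := hx w
            change H.tr A (H.cl (x * w)) = 0 at h2
            rwa [map_mul] at h2
          | zero => rw [mul_zero, map_zero]
          | add a a' _ _ ha ha' => rw [mul_add, map_add, ha, ha', add_zero]
          | smul c a _ ha => rw [mul_smul_comm, map_smul, ha, smul_zero]
        exact h1 _ (NK_le l hl)
      · obtain ⟨S, f, hf, hsum⟩ := exists_expansion (C := C) x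
        rw [hsum, map_sum, Finset.sum_mul, map_sum]
        refine Finset.sum_eq_zero fun i _ => ?_
        have h1 : H.pull π (H.cl (f i)) = (Q : K) ^ i • H.cl (f i) := by
          have h2 := frobenius_act h.frobenius i (f i) (hf i)
          rw [C.act_cograph] at h2
          rw [← H.cl_pull, h2, CH.cl_smul]
          push_cast
          rfl
        have h2 := CH.tr_frob hfrob (H.cl (f i) * b t)
        rw [map_mul, h1, hb, smul_mul_smul_comm, map_smul, smul_eq_mul] at h2
        have h3 : ((Q : K) ^ i * α t - (Q : K) ^ A.dim) * H.tr A (H.cl (f i) * b t) = 0 := by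
          rw [sub_mul, h2, sub_self]
        rcases mul_eq_zero.1 h3 with h4 | h4
        · exfalso
          apply ht
          obtain ⟨l, -, hl⟩ := hgood 1 (Or.inl rfl) t ((A.dim : ℤ) - i) (by
            rw [mul_one, zpow_sub₀ hQ, zpow_natCast, eq_div_iff (zpow_ne_zero _ hQ), mul_comm]
            exact sub_eq_zero.1 h4)
          exact ⟨l, hl⟩
        · exact h4
    apply H.nondeg
    intro y
    have h2 : y = ∑ t, b.repr y t • b t := (b.sum_repr y).symm
    rw [h2, Finset.mul_sum, map_sum]
    refine Finset.sum_eq_zero fun t _ => ?_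
    rw [mul_smul_comm, map_smul, hbt, smul_zero]

/-- Eigenvalues that occur in `𝒜` are separated from those of `A`. -/
theorem separated (hS : CH.IsStandard H) (h : IsAbelianVariety H π Q)
    (hr : HasMaximalAngleRank H π Q) (e : C.A (A.prod A)) {πY : Y ⟶ Y} {e' : C.A (Y.prod Y)}
    (hind : ∀ y ρ : K, IsEigenvalueOne H π y → Occurs H πY e' ρ → IsIndependent Q y ρ) :
    AreSeparated H π e πY e' Q := by
  obtain ⟨n, b, α, hb, -, hgood⟩ := exists_good_basis hS h hr
  intro μ ρ c hμ hρ hc
  obtain ⟨a, ha, ha0⟩ := hμ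
  have ha0' : a ≠ 0 := by
    rintro rfl
    apply ha0
    exact H.act_map_zero _
  have h1 := gen_mem b α hb ha
  obtain ⟨t, ht⟩ : ∃ t, α t = μ := by
    by_contra hcon
    push Not at hcon
    apply ha0'
    have h2 : {c : H.A A | ∃ t, α t = μ ∧ c = b t} = ∅ := by
      ext c
      constructor
      · rintro ⟨t, ht, -⟩
        exact (hcon t ht).elim
      · intro h
        exact h.elim
    rw [h2, Submodule.span_empty, Submodule.mem_bot] at h1
    exact h1
  obtain ⟨l, hl, -⟩ := hgood ρ (Or.inr fun y hy => hind y ρ hy hρ) t c (by rw [ht]; exact hc)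
  exact ⟨l, by rw [← ht, hl, zpow_natCast]⟩

/-- The eigenvalues of Frobenius on the cohomology of `A` are algebraic. -/
theorem algebraic (hS : CH.IsStandard H) (h : IsAbelianVariety H π Q)
    (hr : HasMaximalAngleRank H π Q) : HasAlgebraicEigenvalues H π := by
  obtain ⟨n, b, α, hb, hα, -⟩ := exists_good_basis hS h hr
  intro μ a ha0 ha
  have h1 : IsGenEigen H π μ a := by
    refine ⟨1, ?_⟩
    change H.pull π a - μ • a = 0
    change H.pull π a = μ • a at ha
    rw [ha, sub_self]
  have h2 := gen_mem b α hb h1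
  by_contra hcon
  apply ha0
  have h3 : {c : H.A A | ∃ t, α t = μ ∧ c = b t} = ∅ := by
    ext c
    constructor
    · rintro ⟨t, ht, -⟩
      apply hcon
      rw [← ht]
      exact isAlgebraic_iff_isIntegral.2 (hα t)
    · intro h
      exact h.elim
  rw [h3, Submodule.span_empty, Submodule.mem_bot] at h2
  exact h2

/-- **The theorem.** -/
theorem main [IsAlgClosed K] (hS : CK.IsStandard H) (h : IsAbelianVariety H π Q)
    (hr : HasMaximalAngleRank H π Q) (hnil : ProductsVanish H A) (e : C.A (A.prod A))
    (he : IsIdempotent C e) : KunnethForIndependent H π Q e := by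
  have hS' := isStandard_bridge hS
  have h1 : IsTateMotive H π Q e := ⟨he, h.frobenius, algebraic hS' h hr, hnil,
    isTate hS' h hr e he⟩
  obtain ⟨J, hJ, D, hD, hnd, hK⟩ := NK.main hS h1
  refine ⟨J, hJ, D, hD, hnd, fun Y πY e' h' => ?_⟩
  exact hK Y πY e' ⟨h'.idempotent, h'.frobenius, h'.algebraic, h'.nilpotent,
    separated hS' h hr e h'.independent⟩

end Pool.Agent.T9h37.NM
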