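import Pool.Agent.T9h37.NM.Defs
import Pool.Agent.T9h37.NK.Main

/-!
# Maximal angle rank: relations contain a trivial pair
-/

set_option autoImplicit false
set_option linter.unusedSectionVars false

open CategoryTheory AlgebraicGeometry

universe u v w

namespace Pool.Agent.T9h37.NM

open Module Polynomial Pool.Agent.H914 Pool.Agent.H914.VarClass Pool.Agent.H914.VarClass.Obj
  Pool.Agent.W492.BB Pool.Agent.W550.Corr Pool.Agent.W484.TB Pool.Agent.W484.HS Pool.Agent.W484.CK
  Pool.Agent.W484 Pool.Agent.T9h37.NK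

variable {k : Type u} [Field k] {𝒱 : VarClass k} {C : TheoryData.{u, v, 0} 𝒱 ℚ} {K : Type w}
  [Field K] [CharZero K] {H : WeilTheoryData.{u, v, w} C K} [hC : IsChow C] [hH : IsWeil H]
  {A Y : 𝒱.Obj} {π : A ⟶ A} {Q : ℕ}

theorem pull_eq_zero (hF : CK.IsFrobenius C π Q) (hQ : Q ≠ 0) {c : H.A A} (h : H.pull π c = 0) :
    c = 0 := by
  apply H.nondeg
  intro y
  have h1 := CH.tr_frob (isFrobenius_bridge hF) (c * y)
  rw [map_mul, h, zero_mul, map_zero] at h1
  exact (mul_eq_zero.1 h1.symm).resolve_left (pow_ne_zero _ (by exact_mod_cast hQ))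

theorem eigen_ne_zero (hF : CK.IsFrobenius C π Q) (hQ : Q ≠ 0) {y : K}
    (hy : IsEigenvalueOne H π y) : y ≠ 0 := by
  rintro rfl
  obtain ⟨c, -, hc0, hc⟩ := hy
  apply hc0
  apply pull_eq_zero hF hQ
  change H.up π c = 0
  rw [hc, zero_smul]

theorem eigen_map {P : ℚ[X]} (hP : ∀ y : K, IsEigenvalueOne H π y ↔ aeval y P = 0) (τ : K ≃+* K)
    {y : K} (hy : IsEigenvalueOne H π y) : IsEigenvalueOne H π (τ y) := by
  rw [hP] at hy ⊢
  have h1 := Polynomial.aeval_algHom_apply (RingHom.toRatAlgHom (τ : K →+* K)) y P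
  have h2 : (RingHom.toRatAlgHom (τ : K →+* K)) y = τ y := rfl
  rw [h2] at h1
  rw [h1, hy, map_zero]

theorem zpow_inj {Q : ℕ} (hQ : 1 < Q) {a b : ℤ} (h : (Q : K) ^ a = (Q : K) ^ b) : a = b := by
  have h1 : (((Q : ℚ) ^ a : ℚ) : K) = (((Q : ℚ) ^ b : ℚ) : K) := by
    push_cast
    exact h
  have h2 : (Q : ℚ) ^ a = (Q : ℚ) ^ b := Rat.cast_injective h1
  exact zpow_right_injective₀ (by
    have : 0 < Q := by omega
    exact_mod_cast this) (by
    have : Q ≠ 1 := by omega
    exact_mod_cast this) h2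

/-- **Relations contain a trivial pair.** -/
theorem pair (h : IsAbelianVariety H π Q) (hr : HasMaximalAngleRank H π Q) (ρ : K)
    (hρ : ρ = 1 ∨ ∀ y, IsEigenvalueOne H π y → IsIndependent Q y ρ) :
    ExactPairK (fun y : {y : K // IsEigenvalueOne H π y} => (y : K)) (Q : K) ρ := by
  classical
  intro n c N hN hn ys hlen hrel hpw
  obtain ⟨P, hP0, hP⟩ := h.rational
  have hQ1 : Q ≠ 0 := by
    have := h.one_lt
    omega
  have hQ : (Q : K) ≠ 0 := by exact_mod_cast hQ1
  let S : Finset K := (P.aroots K).toFinset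
  have hS : ∀ y, y ∈ S ↔ IsEigenvalueOne H π y := by
    intro y
    rw [hP, Multiset.mem_toFinset, mem_aroots]
    exact ⟨fun h => h.2, fun h => ⟨hP0, h⟩⟩
  let l : List K := ys.map Subtype.val
  let e : K → ℕ := fun y => l.count y
  have hl : ∀ y ∈ l, y ∈ S := by
    intro y hy
    obtain ⟨z, -, rfl⟩ := List.mem_map.1 hy
    exact (hS _).2 z.2
  have he0 : ∀ y, y ∉ S → e y = 0 := fun y hy => List.count_eq_zero.2 fun h => hy (hl y h)
  have hα : l.prod = ∏ y ∈ S, y ^ e y :=
    Finset.prod_list_count_of_subset l S fun y hy => hl y (List.mem_toFinset.1 hy)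
  have hS0 : ∀ y ∈ S, y ≠ 0 := fun y hy => eigen_ne_zero h.frobenius hQ1 ((hS y).1 hy)
  have hα0 : l.prod ≠ 0 := by
    rw [hα]
    exact Finset.prod_ne_zero_iff.2 fun y hy => pow_ne_zero _ (hS0 y hy)
  obtain ⟨y1, hy1, hy1r⟩ : ∃ y, y ∈ ys ∧ (y : K) ^ 2 ≠ (Q : K) := by
    by_contra hcon
    push Not at hcon
    cases ys with
    | nil =>
      simp only [List.length_nil] at hlen
      omega
    | cons y l' =>
      have hy := hcon y List.mem_cons_self
      cases l' with
      | nil =>
        have hrel2 : ((y : K) * ρ) ^ N = ((Q : K) ^ c) ^ N := by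
          rw [← hrel, List.map_cons, List.map_nil, List.prod_cons, List.prod_nil, mul_one]
        rcases hρ with rfl | hρ
        · rw [mul_one] at hrel2
          have h3 : ((Q : K)) ^ ((N : ℤ)) = (Q : K) ^ (2 * (c * N)) := by
            calc ((Q : K)) ^ ((N : ℤ)) = ((y : K) ^ N) ^ 2 := by
                  rw [zpow_natCast, ← hy, ← pow_mul, ← pow_mul, mul_comm]
              _ = (Q : K) ^ (2 * (c * N)) := by
                  rw [hrel2, ← zpow_natCast, ← zpow_natCast, ← zpow_mul, ← zpow_mul]
                  congr 1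
                  push_cast
                  ring
          have h4 := zpow_inj h.one_lt h3
          have h5 : (N : ℤ) * (1 - 2 * c) = 0 := by linarith
          rcases mul_eq_zero.1 h5 with h6 | h6
          · omega
          · omega
        · exact (hρ y y.2).real hy c N hN hrel2
      | cons y' l'' =>
        have hy' := hcon y' (List.mem_cons_of_mem _ List.mem_cons_self)
        have h3 := (List.pairwise_cons.1 hpw).1 y' List.mem_cons_self
        apply h3
        change (y : K) * (y' : K) = Q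
        rw [← hr.real y y' y.2 y'.2 hy hy', ← pow_two, hy]
  have hy1l : (y1 : K) ∈ l := List.mem_map_of_mem hy1
  have hy10 : (y1 : K) ≠ 0 := hS0 _ (hl _ hy1l)
  have hbar : ∀ y : K, y ≠ 0 → (Q : K) / ((Q : K) / y) = y := fun y hy => by
    field_simp
  have hsym : e y1 = e ((Q : K) / y1) := by
    rcases hρ with rfl | hρ
    · refine hr.relations S e c N hN (fun y hy => (hS y).1 hy) he0 ?_ y1
      rw [← hα]
      rw [mul_one] at hrel
      exact hrel
    · obtain ⟨τ, M, hM, hτy, hτρ⟩ := (hρ y1 y1.2).conj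
      have hρ0 : ρ ≠ 0 := by
        rintro rfl
        rw [mul_zero, zero_pow hN.ne'] at hrel
        exact pow_ne_zero _ (zpow_ne_zero _ hQ) hrel.symm
      have hτQ : τ (Q : K) = Q := map_natCast τ Q
      have hτS : ∀ y, τ y ∈ S ↔ y ∈ S := by
        intro y
        rw [hS, hS]
        refine ⟨fun hy => ?_, eigen_map hP τ⟩
        have h1 := eigen_map hP τ.symm hy
        rwa [RingEquiv.symm_apply_apply] at h1
      have hdual : ∀ y ∈ S, (Q : K) / y ∈ S := fun y hy => (hS _).2 (h.dual y ((hS _).1 hy))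
      -- the relation for `τ`
      have h1 : τ l.prod ^ (N * M) = l.prod ^ (N * M) := by
        have h2 : l.prod ^ (N * M) * ρ ^ (N * M) = ((Q : K) ^ c) ^ (N * M) := by
          rw [← mul_pow, pow_mul, hrel, ← pow_mul]
        have h3 : τ (((Q : K) ^ c) ^ (N * M)) = ((Q : K) ^ c) ^ (N * M) := by
          rw [map_pow, map_zpow₀, hτQ]
        have h4 : τ (ρ ^ (N * M)) = ρ ^ (N * M) := by
          rw [mul_comm N M, pow_mul, map_pow, hτρ]
        have h5 : τ (l.prod ^ (N * M)) * ρ ^ (N * M) = l.prod ^ (N * M) * ρ ^ (N * M) := by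
          rw [h2, ← h3, ← h2, map_mul, h4]
        have h6 := mul_right_cancel₀ (pow_ne_zero _ hρ0) h5
        rwa [map_pow] at h6
      let e' : K → ℕ := fun z => e (τ.symm z) + e ((Q : K) / z)
      have hp1 : ∏ z ∈ S, z ^ e (τ.symm z) = τ l.prod := by
        rw [hα, map_prod]
        refine Finset.prod_nbij' (fun z => τ.symm z) (fun y => τ y) ?_ ?_ ?_ ?_ ?_
        · intro z hz
          rw [← hτS, RingEquiv.apply_symm_apply]
          exact hz
        · intro z hz
          exact (hτS z).2 hz
        · intro z _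
          exact RingEquiv.apply_symm_apply τ z
        · intro z _
          exact RingEquiv.symm_apply_apply τ z
        · intro z _
          rw [map_pow, RingEquiv.apply_symm_apply]
      have hp2 : (∏ z ∈ S, z ^ e ((Q : K) / z)) * l.prod = (Q : K) ^ (∑ y ∈ S, e y) := by
        have h2 : ∏ z ∈ S, z ^ e ((Q : K) / z) = ∏ y ∈ S, ((Q : K) / y) ^ e y := by
          refine Finset.prod_nbij' (fun z => (Q : K) / z) (fun z => (Q : K) / z) hdual hdual ?_ ?_ ?_
          · intro z hz
            exact hbar z (hS0 z hz)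
          · intro z hz
            exact hbar z (hS0 z hz)
          · intro z hz
            rw [hbar z (hS0 z hz)]
        rw [h2, hα, ← Finset.prod_mul_distrib, ← Finset.prod_pow_eq_pow_sum]
        refine Finset.prod_congr rfl fun y hy => ?_
        rw [← mul_pow, div_mul_cancel₀ _ (hS0 y hy)]
      have hrel' : (∏ z ∈ S, z ^ e' z) ^ (N * M) =
          ((Q : K) ^ ((∑ y ∈ S, e y : ℕ) : ℤ)) ^ (N * M) := by
        have h2 : ∏ z ∈ S, z ^ e' z = τ l.prod * ∏ z ∈ S, z ^ e ((Q : K) / z) := by
          rw [← hp1, ← Finset.prod_mul_distrib]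
          exact Finset.prod_congr rfl fun z _ => pow_add _ _ _
        rw [zpow_natCast, ← hp2, h2, mul_pow, mul_pow, h1, mul_comm]
      have he'0 : ∀ y, y ∉ S → e' y = 0 := by
        intro y hy
        have h2 : e (τ.symm y) = 0 := by
          apply he0
          rw [← hτS, RingEquiv.apply_symm_apply]
          exact hy
        have h3 : e ((Q : K) / y) = 0 := by
          apply he0
          intro h3
          have h4 := hdual _ h3
          by_cases hy0 : y = 0
          · rw [hy0, div_zero] at h3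
            exact hS0 _ h3 rfl
          · rw [hbar y hy0] at h4
            exact hy h4
        change e (τ.symm y) + e ((Q : K) / y) = 0
        rw [h2, h3]
      have h2 := hr.relations S e' _ (N * M) (Nat.mul_pos hN hM) (fun y hy => (hS y).1 hy) he'0
        hrel' y1
      change e (τ.symm y1) + e ((Q : K) / y1) =
        e (τ.symm ((Q : K) / y1)) + e ((Q : K) / ((Q : K) / y1)) at h2
      have h3 : τ.symm (y1 : K) = (Q : K) / y1 := by
        apply τ.injective
        rw [RingEquiv.apply_symm_apply, map_div₀, hτQ, hτy, hbar _ hy10]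
      have h4 : τ.symm ((Q : K) / y1) = y1 := by
        apply τ.injective
        rw [RingEquiv.apply_symm_apply, hτy]
      rw [h3, h4, hbar _ hy10] at h2
      omega
  have h1 : 0 < e y1 := List.count_pos_iff.2 hy1l
  rw [hsym] at h1
  have h2 : (Q : K) / y1 ∈ l := List.count_pos_iff.1 h1
  obtain ⟨y2, hy2, h3⟩ := List.mem_map.1 h2
  have hne : y1 ≠ y2 := by
    rintro rfl
    apply hy1r
    rw [pow_two]
    nth_rewrite 1 [h3]
    exact div_mul_cancel₀ _ hy10
  have hR : Std.Symm fun y y' : {y : K // IsEigenvalueOne H π y} => (y : K) * (y' : K) ≠ (Q : K) :=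
    ⟨fun a b hab h => hab (by rw [mul_comm]; exact h)⟩
  refine hpw.forall hy1 hy2 hne ?_
  change (y1 : K) * (y2 : K) = Q
  rw [h3, mul_div_cancel₀ _ hy10]

end Pool.Agent.T9h37.NM
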